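import Pool.Agent.helper9.HX.Spec
import Pool.Agent.helper65.HC.Exact

set_option autoImplicit false

/-!
# MP_d9e35a: row FIN (assembly of the exact value)
-/

open scoped Classical

namespace Pool.Agent.helper9.HX

open Finset
open Pool.Agent.helper65.HC (V IsEig IsTop lam)
open Pool.Agent.helper9.HQ (Fam Dn E N Le hi c)
open Pool.Agent.helper9

theorem FIN_pow (d : ℕ) (hd : 1 ≤ d) : 2 * d ≤ 2 ^ d := by
  obtain ⟨e, rfl⟩ : ∃ e, d = e + 1 := ⟨d - 1, by omega⟩
  have h := Nat.lt_two_pow_self (n := e)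
  rw [pow_succ]
  omega

theorem FIN (hUPP : UPP_stmt) (hUP : UP_stmt) (hLBV : LBV_stmt) : FIN_stmt := by
  obtain ⟨m₁, h1⟩ := hUP
  refine ⟨max m₁ 4, ?_⟩
  intro d m hm hmd
  have hm1 : m₁ ≤ m := le_trans (le_max_left _ _) hm
  have hm4 : 4 ≤ m := le_trans (le_max_right _ _) hm
  have hpow : m ≤ 2 ^ d := le_trans hmd (FIN_pow d (by omega))
  have hG := Pool.Agent.helper65.HC.lam_isGreatest d m (by omega) hpow
  have hA := hLBV d m (min d (m - 1)) hm4 (by omega) (by omega) (by omega)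
  have hB := hLBV d m ((m + 1) / 2) hm4 (by omega) (by omega) (by omega)
  refine ⟨hA.1, ?_, hG⟩
  refine le_antisymm ?_ ?_
  · obtain ⟨U, hU, hT⟩ := hG.1
    obtain ⟨A, l, f, hc, hP, hl⟩ := hUPP d U (lam d m) hT.1
    have h2 := h1 m hm1 d A l f hP (hc.trans hU)
    have h3 : lam d m ^ 2 ≤ l ^ 2 := pow_le_pow_left₀ hA.1 hl 2
    exact le_trans h3 h2
  · unfold Xs
    exact max_le hA.2 hB.2

end Pool.Agent.helper9.HX
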